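import Pool.Agent.Y840.CT.LowF
import Pool.Agent.Q41.CP.Poly

/-!
# Lower bounds for `N = p + P₂` in which `p` avoids residue classes

For all large even `N` the number of representations `N = p + k`, where `p` is a prime in a given interval
of length at least `θ N`, `k` has at most two prime factors, all of them larger than `N ^ (1/9)`, and `p` avoids
arbitrary `r` residue classes modulo every prime `q ≤ N ^ (1/t)`, has at least the predicted order.
-/

set_option autoImplicit false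

namespace Pool.Agent.Results.MP_dd84fd_nt.ChenAvoidingClasses

open Finset Filter

open Classical in
/-- the number of the residue classes `x` modulo `q` such that `x (N - x) ≡ 0` or `x ≡ e` for some `e ∈ E` -/
noncomputable def rho (N : ℕ) (E : Finset ℤ) (q : ℕ) : ℕ :=
  ((range q).filter (fun x : ℕ => (q : ℤ) ∣ (x : ℤ) * ((N : ℤ) - x) ∨ ∃ e ∈ E, (q : ℤ) ∣ x - e)).card

/-- the number of the residue classes `x` modulo `q` such that `x (N - x) ≡ 0`, or `f (x) ≡ 0` and `q ≥ w` -/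
noncomputable def rhoP (N w : ℕ) (f : Polynomial ℤ) (q : ℕ) : ℕ :=
  ((range q).filter (fun x : ℕ => (q : ℤ) ∣ (x : ℤ) * ((N : ℤ) - x) ∨ (w ≤ q ∧ (q : ℤ) ∣ f.eval (x : ℤ)))).card

/-- `N = p + k`, where `p` is a prime larger than `N ^ (1/t)` and `k ≥ 1` has at most two prime factors (with
multiplicity), all of them larger than `N ^ (1/9)` and `N ^ (1/t)` -/
def Rep (t N p : ℕ) : Prop :=
  p.Prime ∧ (N : ℝ) ^ (1 / (t : ℝ)) < p ∧ p < N ∧ (N - p).primeFactorsList.length ≤ 2 ∧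
    ∀ q : ℕ, q.Prime → q ∣ N - p → (N : ℝ) ^ (1 / 9 : ℝ) < q ∧ (N : ℝ) ^ (1 / (t : ℝ)) < q

open Classical in
/-- the representations with `p ∈ (A, B]` which avoid the classes `E q` modulo `q` for all primes `q ≤ N ^ (1/t)` -/
noncomputable def G (t N A B : ℕ) (E : ℕ → Finset ℤ) : Finset ℕ :=
  (Ioc A B).filter (fun p : ℕ => Rep t N p ∧ ∀ q : ℕ, q.Prime → (q : ℝ) ≤ (N : ℝ) ^ (1 / (t : ℝ)) →
    ∀ e ∈ E q, ¬ (q : ℤ) ∣ p - e)

/-- at most `r` classes modulo every prime `q`, and no obstruction modulo `q` -/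
def Adm (r N : ℕ) (E : ℕ → Finset ℤ) : Prop :=
  ∀ q : ℕ, q.Prime → (E q).card ≤ r ∧ rho N (E q) q < q

/-- the sieve product -/
noncomputable def V (N : ℕ) (ρ : ℕ → ℕ) : ℝ :=
  ∏ q ∈ (Icc 1 N).filter Nat.Prime, (1 - (ρ q : ℝ) / q)

open Classical in
/-- the representations with `p ∈ (A, B]` such that `f (p) ≠ 0` has at most `R` prime factors `q ≥ w`
(with multiplicity), all of them larger than `N ^ (1/t)` -/
noncomputable def P (t R w N A B : ℕ) (f : Polynomial ℤ) : Finset ℕ :=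
  (Ioc A B).filter (fun p : ℕ => Rep t N p ∧ f.eval (p : ℤ) ≠ 0 ∧
    (∀ q : ℕ, q.Prime → w ≤ q → (q : ℤ) ∣ f.eval (p : ℤ) → (N : ℝ) ^ (1 / (t : ℝ)) < q) ∧
    ((f.eval (p : ℤ)).natAbs.primeFactorsList.filter (fun q => decide (w ≤ q))).length ≤ R)

/-- the degree of `f` is at most `r`, the coefficients are at most `N ^ m` in absolute value, and no prime `q ≥ w`
divides all the values of `x (N - x) f (x)` -/
def Poly (r m w N : ℕ) (f : Polynomial ℤ) : Prop :=
  f.natDegree ≤ r ∧ (∀ i, |f.coeff i| ≤ (N : ℤ) ^ m) ∧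
    ∀ q : ℕ, q.Prime → w ≤ q → ∃ x : ℤ, ¬ (q : ℤ) ∣ x * (N - x) * f.eval x

/-- the sets of shifts for the prime `p` -/
def FF (N : ℕ) (E : ℕ → Finset ℤ) (q : ℕ) : Finset ℤ := insert (N : ℤ) (E q)

/-- the count of the classes -/
theorem rho_eq {N : ℕ} {E : ℕ → Finset ℤ} {q : ℕ} (hq : q.Prime) :
    Pool.Agent.Y840.CT.rho (FF N E q) q = rho N (E q) q := by
  classical
  have hq0 : (0 : ℤ) < q := by exact_mod_cast hq.pos
  have hqi : Prime (q : ℤ) := Nat.prime_iff_prime_int.1 hq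
  have hmod : ∀ a b : ℤ, (q : ℤ) ∣ a - b → b % q = a % q := fun a b h => Int.modEq_iff_dvd.2 h
  unfold Pool.Agent.Y840.CT.rho rho
  symm
  apply card_bij (fun (n : ℕ) _ => (n : ℤ) % (q : ℤ))
  · intro n hn
    rw [mem_filter, mem_range] at hn
    rw [mem_image]
    unfold FF
    rcases hn.2 with h | ⟨e, he, h⟩
    · rcases hqi.dvd_or_dvd h with h1 | h1
      · exact ⟨0, mem_insert_self _ _, hmod _ _ (by simpa using h1)⟩
      · exact ⟨(N : ℤ), by simp, (hmod _ _ h1).symm⟩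
    · exact ⟨e, mem_insert_of_mem (mem_insert_of_mem he), hmod _ _ h⟩
  · intro a ha b hb hab
    rw [mem_filter, mem_range] at ha hb
    rw [Int.emod_eq_of_lt (by positivity) (by exact_mod_cast ha.1),
      Int.emod_eq_of_lt (by positivity) (by exact_mod_cast hb.1)] at hab
    exact_mod_cast hab
  · intro z hz
    rw [mem_image] at hz
    unfold FF at hz
    obtain ⟨h, hh, rfl⟩ := hz
    have hn0 : (0 : ℤ) ≤ h % q := Int.emod_nonneg _ hq0.ne'
    have hnz : (((h % q).toNat : ℕ) : ℤ) = h % q := Int.toNat_of_nonneg hn0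
    have hnq : (h % q).toNat < q := by
      have := Int.emod_lt_of_pos h hq0
      omega
    have h1 : (q : ℤ) ∣ (((h % q).toNat : ℕ) : ℤ) - h := by
      rw [hnz, ← dvd_neg, neg_sub]
      exact Int.dvd_self_sub_emod
    refine ⟨(h % q).toNat, ?_, by
      rw [hnz]
      exact Int.emod_emod_of_dvd _ dvd_rfl⟩
    rw [mem_filter, mem_range]
    refine ⟨hnq, ?_⟩
    rw [mem_insert, mem_insert] at hh
    rcases hh with rfl | rfl | he
    · left
      apply Dvd.dvd.mul_right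
      rwa [sub_zero] at h1
    · left
      apply Dvd.dvd.mul_left
      rwa [← dvd_neg, neg_sub]
    · right
      exact ⟨h, he, h1⟩

/-- the hypotheses of the general theorem -/
theorem sys {r N : ℕ} {E : ℕ → Finset ℤ} (hE : Adm r N E) (hN : 1 ≤ N) :
    Pool.Agent.Y840.CT.SysF (r + 1) N (FF N E) (N : ℤ) := by
  classical
  constructor
  · intro q hq
    have h1 := (hE q hq).1
    exact (card_insert_le _ _).trans (by omega)
  · exact_mod_cast (by omega : N ≠ 0)
  · rw [abs_of_nonneg (by positivity)]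
  · intro q hq
    exact mem_insert_self _ _
  · intro q hq
    rw [rho_eq hq]
    exact (hE q hq).2

/-- the two sieve products -/
theorem VF_eq {N : ℕ} {E : ℕ → Finset ℤ} :
    Pool.Agent.Y840.CT.VF (FF N E) N = V N (fun q => rho N (E q) q) := by
  classical
  unfold Pool.Agent.Y840.CT.VF V
  apply prod_congr rfl
  intro q hq
  rw [mem_filter] at hq
  rw [rho_eq hq.2]

/-- the primes of the general theorem -/
theorem GoodF_eq {t N A B : ℕ} {E : ℕ → Finset ℤ} (hB : B ≤ N) :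
    Pool.Agent.Y840.CT.GoodF t N A B (FF N E) (N : ℤ) = G t N A B E := by
  classical
  unfold Pool.Agent.Y840.CT.GoodF G
  apply filter_congr
  intro p hp
  rw [mem_Ioc] at hp
  constructor
  · rintro ⟨p3, p4, p5, p6⟩
    obtain ⟨r1, r2, r3⟩ := p5
    have hlt : p < N := by omega
    have e1 : ((N : ℤ) - p).natAbs = N - p := by omega
    rw [e1] at r2
    refine ⟨⟨p3, p4, hlt, r2, ?_⟩, ?_⟩
    · intro q hq hd
      have hd' : (q : ℤ) ∣ (N : ℤ) - p := by
        rw [Int.natCast_dvd, e1]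
        exact hd
      refine ⟨r3 q hq hd', ?_⟩
      by_contra hcon
      push Not at hcon
      exact p6 q hq hcon N (mem_insert_self _ _) hd'
    · intro q hq hqX e he hd
      apply p6 q hq hqX e (mem_insert_of_mem he)
      rwa [← dvd_neg, neg_sub]
  · rintro ⟨⟨n3, n4, hlt, n5, n6⟩, n7⟩
    have e1 : ((N : ℤ) - p).natAbs = N - p := by omega
    refine ⟨n3, n4, ⟨?_, ?_, ?_⟩, ?_⟩
    · omega
    · rw [e1]
      exact n5
    · intro q hq hd
      rw [Int.natCast_dvd, e1] at hd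
      exact (n6 q hq hd).1
    · intro q hq hqX h hh hd
      unfold FF at hh
      rw [mem_insert] at hh
      rcases hh with rfl | he
      · rw [Int.natCast_dvd, e1] at hd
        have := (n6 q hq hd).2
        linarith
      · apply n7 q hq hqX h he
        rwa [← dvd_neg, neg_sub]

open Pool.Agent.Q41.CP (roots mem_roots roots_card dvd_iff eval_le length_le)

/-- the classes of the roots -/
noncomputable def Ef (w : ℕ) (f : Polynomial ℤ) (q : ℕ) : Finset ℤ := if w ≤ q then roots f q else ∅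

theorem mem_Ef {w : ℕ} {f : Polynomial ℤ} {q : ℕ} (hq : 0 < q) (n : ℤ) :
    (∃ e ∈ Ef w f q, (q : ℤ) ∣ n - e) ↔ (w ≤ q ∧ (q : ℤ) ∣ f.eval n) := by
  unfold Ef
  split_ifs with h
  · rw [dvd_iff hq]
    simp [h]
  · simp [h]

theorem rho_Ef (N w : ℕ) (f : Polynomial ℤ) {q : ℕ} (hq : q.Prime) : rho N (Ef w f q) q = rhoP N w f q := by
  classical
  unfold rho rhoP
  congr 1
  apply filter_congr
  intro n _
  rw [mem_Ef hq.pos]

/-- the classes of the roots of a polynomial are admissible -/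
theorem adm_Ef {r m w N : ℕ} {f : Polynomial ℤ} (hN : Even N) (hf : Poly r m w N f) : Adm r N (Ef w f) := by
  classical
  intro q hq
  have hq0 : (0 : ℤ) < q := by exact_mod_cast hq.pos
  have hqi : Prime (q : ℤ) := Nat.prime_iff_prime_int.1 hq
  have hgen : ∀ n : ℤ, 0 ≤ n → n < q → ¬ (q : ℤ) ∣ n * (N - n) → ¬ (w ≤ q ∧ (q : ℤ) ∣ f.eval n) →
      rho N (Ef w f q) q < q := by
    intro n h0 h1 h2 h3
    have hlt : rho N (Ef w f q) q < (range q).card := by
      rw [rho_Ef N w f hq]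
      unfold rhoP
      apply card_lt_card
      rw [filter_ssubset]
      refine ⟨n.toNat, by rw [mem_range]; omega, ?_⟩
      rw [Int.toNat_of_nonneg h0, not_or]
      exact ⟨h2, h3⟩
    rwa [card_range] at hlt
  rcases Nat.lt_or_ge q w with hw | hw
  · refine ⟨by unfold Ef; rw [if_neg (by omega)]; simp, ?_⟩
    have h1q := hq.two_le
    by_cases hd : (q : ℤ) ∣ (N : ℤ) - 1
    · -- then `q > 2` and `2` works
      have hq2 : q ≠ 2 := by
        rintro rfl
        obtain ⟨k, hk⟩ := hN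
        rw [hk] at hd
        push_cast at hd
        omega
      have hq3 : 3 ≤ q := by omega
      apply hgen 2 (by norm_num) (by exact_mod_cast (by omega : 2 < q)) _ (fun h => by omega)
      intro hcon
      rcases hqi.dvd_or_dvd hcon with h | h
      · have := Int.le_of_dvd (by norm_num) h
        omega
      · have h4 : (q : ℤ) ∣ ((N : ℤ) - 1) - (N - 2) := dvd_sub hd h
        have := Int.le_of_dvd (by norm_num) (by simpa using h4 : (q : ℤ) ∣ 1)
        omega
    · apply hgen 1 (by norm_num) (by exact_mod_cast h1q) _ (fun h => by omega)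
      rwa [one_mul]
  · obtain ⟨n, hn⟩ := hf.2.2 q hq hw
    have h2 : (q : ℤ) ∣ n - n % q := Int.dvd_self_sub_emod
    have h3 : ¬ (q : ℤ) ∣ (n % q) * (N - n % q) * f.eval (n % q) := by
      intro hcon
      apply hn
      rcases hqi.dvd_or_dvd hcon with h | h
      · apply Dvd.dvd.mul_right
        rcases hqi.dvd_or_dvd h with h | h
        · apply Dvd.dvd.mul_right
          have := dvd_add h2 h
          simpa using this
        · apply Dvd.dvd.mul_left
          have := dvd_sub h h2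
          rwa [show (N : ℤ) - n % q - (n - n % q) = N - n by ring] at this
      · apply Dvd.dvd.mul_left
        have h4 : (q : ℤ) ∣ f.eval n - f.eval (n % q) := h2.trans (Polynomial.sub_dvd_eval_sub _ _ _)
        exact (dvd_iff_dvd_of_dvd_sub h4).2 h
    refine ⟨?_, hgen (n % q) (Int.emod_nonneg _ hq0.ne') (Int.emod_lt_of_pos _ hq0)
      (fun h => h3 (Dvd.dvd.mul_right h _)) fun h => h3 (Dvd.dvd.mul_left h.2 _)⟩
    unfold Ef
    rw [if_pos hw]
    exact (roots_card hq ⟨n, fun h => hn (Dvd.dvd.mul_left h _)⟩).trans hf.1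

/-- for the classes of the roots -/
theorem G_eq {t r m w N A B : ℕ} {f : Polynomial ℤ} (ht : 1 ≤ t)
    (hwN : ((2 * (w + 1) : ℕ) : ℝ) ≤ (N : ℝ) ^ (1 / (t : ℝ)))
    (hN2 : 2 ≤ N) (hN : r + 1 ≤ N) (hf : Poly r m w N f) (hB : B ≤ N) :
    G t N A B (Ef w f) = P t (t * (r + m + 1)) w N A B f := by
  classical
  unfold G P
  apply filter_congr
  intro n hn
  rw [mem_Ioc] at hn
  obtain ⟨hr, hc, hloc⟩ := hf
  constructor
  · rintro ⟨h1, h2⟩
    have h3 : ∀ q : ℕ, q.Prime → w ≤ q → (q : ℤ) ∣ f.eval (n : ℤ) → (N : ℝ) ^ (1 / (t : ℝ)) < q := by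
      intro q hq hqw hd
      by_contra hcon
      push Not at hcon
      obtain ⟨e, he, hd'⟩ := (mem_Ef (w := w) hq.pos (n : ℤ)).2 ⟨hqw, hd⟩
      exact h2 q hq hcon e he hd'
    have h4 : f.eval (n : ℤ) ≠ 0 := by
      intro h0
      obtain ⟨q, hq, hwq, hq2⟩ := Nat.exists_prime_lt_and_le_two_mul (w + 1) (by omega)
      have h5 := h3 q hq (by omega) (by rw [h0]; exact dvd_zero _)
      have h6 : (q : ℝ) ≤ ((2 * (w + 1) : ℕ) : ℝ) := by exact_mod_cast hq2
      linarith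
    refine ⟨h1, h4, h3, ?_⟩
    apply length_le _ ht hN2 (Int.natAbs_ne_zero.2 h4)
    · have h5 := eval_le (N := N) (by omega) hr hN hc (n := (n : ℤ)) (by
        rw [abs_of_nonneg (by positivity)]
        exact_mod_cast (by omega : n ≤ N))
      rw [Int.abs_eq_natAbs] at h5
      exact_mod_cast h5
    · intro q hq hd hq5
      exact h3 q hq (by simpa using hq5) (Int.natCast_dvd.2 hd)
  · rintro ⟨h1, h2, h3, -⟩
    refine ⟨h1, ?_⟩
    intro q hq hqX e he hd
    obtain ⟨h4, h5⟩ := (mem_Ef hq.pos (n : ℤ)).1 ⟨e, he, hd⟩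
    have := h3 q hq h4 h5
    linarith

open Classical in
/-- **Chen's lower bound for `N = p + P₂` with residue classes avoided by `p`.** Let `r` be fixed (the number of
classes). There are `t ≥ 1` and `c > 0` such that the following holds.

(1) Let `θ > 0` and `N ≥ N₀ (θ)`. For every prime `q` let `E q` be an ARBITRARY set of at most `r` integers such
that some `x` satisfies `q ∤ x (N - x)` and `x ≢ e (mod q)` for all `e ∈ E q` (for `q = 2` this includes that `N` is
even). Let `B ≤ N` and `B - A ≥ θ N`. The number of the primes `p ∈ (A, B]` such that `N - p` has at most two prime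
factors, all of them larger than `N ^ (1/9)`, and `p ≢ e (mod q)` for all `e ∈ E q` and all primes `q ≤ N ^ (1/t)` is
at least `c (B - A) V`, where `V` is the product of `1 - ρ (q) / q` over the primes `q ≤ N` and `ρ (q)` is the number
of the classes `x` modulo `q` with `x (N - x) ≡ 0` or `x ≡ e ∈ E q`. Moreover `V ≥ c / (log N) ^ (r + 2)`.

(2) Every subset of relative density `δ` of this set contains progressions with `k` terms and difference at most
`(log N) ^ D`, where `D` depends only on `r`, `k`, `θ`, `δ`.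

(3) Let `m` and `w` be fixed. There is `R` such that for all even `N` and all polynomials `f ∈ ℤ[x]` of degree at most
`r` with coefficients at most `N ^ m` in absolute value (`f` may depend on `N`, for example `f (x) = F (x, N - x)` for a
fixed polynomial `F`) such that `x (N - x) f (x)` has no fixed prime divisor `q ≥ w`: (1) and (2) hold for the set of
the primes `p ∈ (A, B]` such that `N - p` has at most two prime factors, all of them larger than `N ^ (1/9)`, and
`f (p) ≠ 0` has at most `R` prime factors `q ≥ w`, all of them larger than `N ^ (1/t)`. (If `w ≥ r + 3`, the hypothesis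
is that the content of `f` has no prime factor `q ≥ w`.) -/
theorem result (r : ℕ) : ∃ t : ℕ, 1 ≤ t ∧ ∃ c : ℝ, 0 < c ∧
    (∀ θ : ℝ, 0 < θ → ∃ N₀ : ℕ, ∀ N : ℕ, N₀ ≤ N → ∀ E : ℕ → Finset ℤ, Adm r N E →
      ∀ A B : ℕ, B ≤ N → θ * N ≤ (B : ℝ) - A →
      c * ((B : ℝ) - A) * V N (fun q => rho N (E q) q) ≤ ((G t N A B E).card : ℝ) ∧
      c / Real.log N ^ (r + 2) ≤ V N (fun q => rho N (E q) q)) ∧
    (∀ k : ℕ, ∀ θ δ : ℝ, 0 < θ → 0 < δ → ∃ D N₀ : ℕ, ∀ N : ℕ, N₀ ≤ N → ∀ E : ℕ → Finset ℤ, Adm r N E →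
      ∀ A B : ℕ, B ≤ N → θ * N ≤ (B : ℝ) - A →
      ∀ S : Finset ℕ, S ⊆ G t N A B E → δ * ((G t N A B E).card : ℝ) ≤ S.card →
        ∃ a d : ℕ, 1 ≤ d ∧ (d : ℝ) ≤ Real.log N ^ D ∧ ∀ j < k, a + j * d ∈ S) ∧
    (∀ m w : ℕ, ∃ R : ℕ,
      (∀ θ : ℝ, 0 < θ → ∃ N₀ : ℕ, ∀ N : ℕ, N₀ ≤ N → Even N → ∀ f : Polynomial ℤ, Poly r m w N f →
        ∀ A B : ℕ, B ≤ N → θ * N ≤ (B : ℝ) - A →
        c * ((B : ℝ) - A) * V N (rhoP N w f) ≤ ((P t R w N A B f).card : ℝ) ∧
        c / Real.log N ^ (r + 2) ≤ V N (rhoP N w f)) ∧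
      (∀ k : ℕ, ∀ θ δ : ℝ, 0 < θ → 0 < δ → ∃ D N₀ : ℕ, ∀ N : ℕ, N₀ ≤ N → Even N →
        ∀ f : Polynomial ℤ, Poly r m w N f →
        ∀ A B : ℕ, B ≤ N → θ * N ≤ (B : ℝ) - A →
        ∀ S : Finset ℕ, S ⊆ P t R w N A B f → δ * ((P t R w N A B f).card : ℝ) ≤ S.card →
          ∃ a d : ℕ, 1 ≤ d ∧ (d : ℝ) ≤ Real.log N ^ D ∧ ∀ j < k, a + j * d ∈ S)) := by
  classical
  obtain ⟨t, ht, c₁, hc₁, hA, hB⟩ := Pool.Agent.Y840.CT.genF (r + 1)
  obtain ⟨c₂, hc₂, hV⟩ := Pool.Agent.Y840.CT.VF_low (r + 1)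
  have part1 : ∀ θ : ℝ, 0 < θ → ∃ N₀ : ℕ, ∀ N : ℕ, N₀ ≤ N → ∀ E : ℕ → Finset ℤ, Adm r N E →
      ∀ A B : ℕ, B ≤ N → θ * N ≤ (B : ℝ) - A →
      min c₁ c₂ * ((B : ℝ) - A) * V N (fun q => rho N (E q) q) ≤ ((G t N A B E).card : ℝ) ∧
      min c₁ c₂ / Real.log N ^ (r + 2) ≤ V N (fun q => rho N (E q) q) := by
    intro θ hθ
    obtain ⟨N₀, h⟩ := hA θ hθ
    refine ⟨max N₀ 3, fun N hN E hE A B hBN hAB => ?_⟩
    have hN0 : N₀ ≤ N := (le_max_left _ _).trans hN
    have hN3 : 3 ≤ N := (le_max_right _ _).trans hN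
    have hNr : (3 : ℝ) ≤ N := by exact_mod_cast hN3
    have hlog : 0 < Real.log N := Real.log_pos (by linarith)
    have hS := sys hE (by omega : 1 ≤ N)
    have h1 := hV N (by omega) (FF N E) hS.card hS.loc
    have hVpos : 0 ≤ Pool.Agent.Y840.CT.VF (FF N E) N := le_trans (by positivity) h1
    have hBA : 0 ≤ (B : ℝ) - A := le_trans (by positivity) hAB
    rw [← VF_eq]
    constructor
    · have h2 := h N hN0 (FF N E) (N : ℤ) hS A B hBN hAB
      rw [GoodF_eq hBN] at h2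
      refine le_trans ?_ h2
      gcongr
      exact min_le_left _ _
    · refine le_trans ?_ h1
      gcongr
      exact min_le_right _ _
  have part2 : ∀ k : ℕ, ∀ θ δ : ℝ, 0 < θ → 0 < δ → ∃ D N₀ : ℕ, ∀ N : ℕ, N₀ ≤ N → ∀ E : ℕ → Finset ℤ,
      Adm r N E → ∀ A B : ℕ, B ≤ N → θ * N ≤ (B : ℝ) - A →
      ∀ S : Finset ℕ, S ⊆ G t N A B E → δ * ((G t N A B E).card : ℝ) ≤ S.card →
        ∃ a d : ℕ, 1 ≤ d ∧ (d : ℝ) ≤ Real.log N ^ D ∧ ∀ j < k, a + j * d ∈ S := by
    intro k θ δ hθ hδ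
    obtain ⟨D, N₀, h⟩ := hB k θ δ hθ hδ
    refine ⟨D, max N₀ 3, fun N hN E hE A B hBN hAB S hS hδS => ?_⟩
    have hN0 : N₀ ≤ N := (le_max_left _ _).trans hN
    have hN3 : 3 ≤ N := (le_max_right _ _).trans hN
    rw [← GoodF_eq hBN] at hS hδS
    exact h N hN0 (FF N E) (N : ℤ) (sys hE (by omega)) A B hBN hAB S hS hδS
  refine ⟨t, ht, min c₁ c₂, lt_min hc₁ hc₂, part1, part2, ?_⟩
  intro m w
  obtain ⟨N₂, hN₂⟩ : ∃ N₂ : ℕ, ∀ N : ℕ, N₂ ≤ N → ((2 * (w + 1) : ℕ) : ℝ) ≤ (N : ℝ) ^ (1 / (t : ℝ)) := by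
    have ht0 : (0 : ℝ) < t := by exact_mod_cast ht
    have h1 : ∀ᶠ N : ℕ in atTop, ((2 * (w + 1) : ℕ) : ℝ) ≤ (N : ℝ) ^ (1 / (t : ℝ)) :=
      ((tendsto_rpow_atTop (show (0 : ℝ) < 1 / (t : ℝ) by positivity)).comp
        tendsto_natCast_atTop_atTop).eventually (eventually_ge_atTop _)
    exact eventually_atTop.1 h1
  refine ⟨t * (r + m + 1), ?_, ?_⟩
  · intro θ hθ
    obtain ⟨N₀, h⟩ := part1 θ hθ
    refine ⟨max N₀ (max N₂ (r + 2)), fun N hN hev f hf A B hBN hAB => ?_⟩
    have hN0 : N₀ ≤ N := (le_max_left _ _).trans hN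
    have hN1 : N₂ ≤ N := ((le_max_left _ _).trans (le_max_right _ _)).trans hN
    have hNr : r + 2 ≤ N := ((le_max_right _ _).trans (le_max_right _ _)).trans hN
    have h1 := h N hN0 (Ef w f) (adm_Ef hev hf) A B hBN hAB
    rw [G_eq ht (hN₂ N hN1) (by omega) (by omega) hf hBN] at h1
    have h2 : V N (fun q => rho N (Ef w f q) q) = V N (rhoP N w f) := by
      unfold V
      apply prod_congr rfl
      intro q hq
      show (1 - (rho N (Ef w f q) q : ℝ) / q) = _
      rw [rho_Ef N w f (mem_filter.1 hq).2]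
    rw [h2] at h1
    exact h1
  · intro k θ δ hθ hδ
    obtain ⟨D, N₀, h⟩ := part2 k θ δ hθ hδ
    refine ⟨D, max N₀ (max N₂ (r + 2)), fun N hN hev f hf A B hBN hAB S hS hδS => ?_⟩
    have hN0 : N₀ ≤ N := (le_max_left _ _).trans hN
    have hN1 : N₂ ≤ N := ((le_max_left _ _).trans (le_max_right _ _)).trans hN
    have hNr : r + 2 ≤ N := ((le_max_right _ _).trans (le_max_right _ _)).trans hN
    rw [← G_eq ht (hN₂ N hN1) (by omega) (by omega) hf hBN] at hS hδS
    exact h N hN0 (Ef w f) (adm_Ef hev hf) A B hBN hAB S hS hδS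

end Pool.Agent.Results.MP_dd84fd_nt.ChenAvoidingClasses
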