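import Pool.Agent.Q26.PD.LF6
import Pool.Agent.Q26.PD.LF8

/-!
# Lower bounds for the number of representations of several integers with a common prime summand, after the
addition of very few elements of arbitrary sets

Definitions used (all in `Pool.Agent.Q26.PD.Sys`), for vectors `n, d` of `s` integers:
* `count n d N`: the number of the primes `q ≤ N` for which all `n i + q d i` are (positive) primes; for `d i = -1` these
  are the primes `q ≤ N` for which all `n i` are sums of `q` and another prime;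
* `nu n d p`: the number `ν(p)` of the residues `r` modulo `p` for which `p` divides `r (n 1 + r d 1) ... (n s + r d s)`;
* `Adm n d`: `ν(p) < p` for all primes `p` (there is no local obstruction; for `s = 1`, `d = -1`: `n` is even);
* `sing n d z`: the product over the primes `p ≤ z` of `(1 - ν(p) / p) / (1 - 1 / p) ^ (s + 1)`.
-/

set_option autoImplicit false

namespace Pool.Agent.Results.MP_dd84fd_nt.ElementsOfAnySetsSystems

open Finset Filter Pool.Agent.Q26.PD.Sys

/-- Let `s ≥ 1`, `l ≥ 2`, `D ≥ 1` and `m ≥ 1` be fixed. There are `C` and `δ > 0` such that for all `H`, `B` and `ε > 0`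
there is an `X₀` with the following property. Let `A 1, ..., A s` be ARBITRARY sets of integers, each of which contains
an element of every interval `[x, l x]` with `x ≥ 1` (`X₀`, `C` and `δ` do not depend on these sets). Let `X ≥ X₀`, and
let `n 1, ..., n s` be ARBITRARY integers with `|n i| ≤ B X`. There are sets `S i` of at most `C (log log X) ^ 2` elements of
`A i`, all between `log ^ H X` and `X / log ^ H X`, such that the numbers `n' i = n i + ∑_{x ∈ S i} x` have the following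
property. For ALL integers `d 1, ..., d s` with `1 ≤ |d i| ≤ D` (of both signs) such that the system of equations
`n i = |d i| q + q i` (if `d i < 0`), `n i = q i - d i q` (if `d i > 0`) in primes `q, q 1, ..., q s` has no local
obstruction, the same is true for `n'`, and the number of its solutions with `n'` and with `q ≤ N` is
`G N / log ^ (s + 1) N` up to a relative error of at most `ε`, for all `N` between `X / m` and `X` for which the
`n' i + q d i` with `1 ≤ q ≤ N` are positive, where the sum `G` of the singular series is at least `δ`. -/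
theorem result (s l D m : ℕ) (hs : 1 ≤ s) (hl : 2 ≤ l) (hD : 1 ≤ D) (hm : 1 ≤ m) : ∃ C δ : ℝ, 0 < δ ∧
    ∀ (H B : ℕ) (ε : ℝ), 0 < ε → ∃ X₀ : ℕ,
    ∀ A : Fin s → Set ℕ, (∀ i, ∀ x : ℕ, 1 ≤ x → ∃ a ∈ A i, x ≤ a ∧ a ≤ l * x) → ∀ X : ℕ, X₀ ≤ X →
    ∀ n : Fin s → ℤ, (∀ i, |n i| ≤ (B : ℤ) * X) →
    ∃ S : Fin s → Finset ℕ, (∀ i, ∀ x ∈ S i, x ∈ A i ∧ Real.log X ^ H ≤ x ∧ (x : ℝ) ≤ X / Real.log X ^ H) ∧
      (∀ i, ((S i).card : ℝ) ≤ C * Real.log (Real.log X) ^ 2) ∧
      ∀ n' : Fin s → ℤ, (∀ i, n' i = n i + ∑ x ∈ S i, (x : ℤ)) →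
      ∀ d : Fin s → ℤ, (∀ i, d i ≠ 0 ∧ |d i| ≤ (D : ℤ)) → Adm n d →
        Adm n' d ∧ ∃ G : ℝ, δ ≤ G ∧ Tendsto (sing n' d) atTop (nhds G) ∧
          ∀ N : ℕ, N ≤ X → X ≤ m * N → (∀ i, 0 < n' i + d i ∧ 0 < n' i + N * d i) →
            |(count n' d N : ℝ) - G * (N / Real.log N ^ (s + 1))| ≤ ε * (G * (N / Real.log N ^ (s + 1))) := by
  obtain ⟨C, hC⟩ := Pool.Agent.Q26.PD.lf_las true s l D m hs hl hD hm
  obtain ⟨δ, hδ, hlow⟩ := Pool.Agent.Q26.PD.low1 s D hD
  refine ⟨C, δ, hδ, fun H B ε hε => ?_⟩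
  obtain ⟨X₀, h⟩ := hC H B ε hε
  obtain ⟨X₁, hlow⟩ := hlow (B + 1)
  refine ⟨X₀ + X₁ + 1, fun A hA X hX n hn => ?_⟩
  obtain ⟨S, h1, h2, h3, h4, h5, h6⟩ := h A hA X (by omega) n hn
  refine ⟨S, h1, h2, fun n' hn' d hd hadm => ?_⟩
  have hn'' : n' = fun i => n i + ∑ x ∈ S i, (x : ℤ) := funext hn'
  rw [← hn''] at h4 h5
  have h6' : ∀ i, |n' i| ≤ ((B + 1 : ℕ) : ℤ) * X := fun i => by rw [hn' i]; exact h6 i
  have hadm' : Adm n' d := by
    rw [← adm_iff] at hadm ⊢
    refine Pool.Agent.Q26.PD.adm1_shift D hD d n n' hd (fun i => ?_) hadm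
    rw [hn' i, add_sub_cancel_left]
    have := Int.natCast_dvd_natCast.2 (h3 i)
    push_cast at this
    exact this
  obtain ⟨G, hG0, hG1, hG2⟩ := of_good ε m X D n' (by omega) h4 d hd hadm'
  refine ⟨hadm', G, ?_, hG1, hG2⟩
  refine hlow X (by omega) d n' hd h6' h5 ((adm_iff n' d).2 hadm') G ?_
  rw [sing_eq]
  exact hG1

end Pool.Agent.Results.MP_dd84fd_nt.ElementsOfAnySetsSystems
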