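import Pool.Agent.Q25.GWin
import Pool.Agent.TH872.GQ.Win

/-!
# The number of Goldbach representations of quadratic values at integers with restricted digits

Definitions used:
* in `Pool.Agent.H560R3.GB`: `C₂`: the twin prime constant `∏_{p > 2} (1 - 1 / (p - 1) ^ 2)`; `sing m`: the
  singular series `2 C₂ ∏_{p ∣ m, p > 2} (p - 1) / (p - 2)`; `g m`: the number of ordered representations of `m` as a
  sum of two primes;
* in `Pool.Agent.TH872.GQ`: `S b D k`: the integers below `b ^ k` whose `i`-th digit in base `b` lies in `D i`, for all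
  `i < k`; `value κ β c n = c + κ n ^ 2 + β n`.
-/

set_option autoImplicit false

namespace Pool.Agent.Results.MP_dd84fd_nt.QuadraticValues

open Finset Pool.Agent.H560R3.GB Pool.Agent.TH872.GQ

/-- The number of primes `p` with `y₁ < p ≤ y₂` such that `m - p` is a prime. -/
def R (m y₁ y₂ : ℕ) : ℕ := ((Ioc y₁ y₂).filter (fun p => p.Prime ∧ (m - p).Prime)).card

/-- (1) `g m ≥ (1 - ε) 2 C₂ m / log² m`; (2) `g m` agrees with `sing m * m / log² m` up to a relative error of at most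
`ε`; (3) for all windows `(y₁, y₂]` in `[0, m]` of a length of at least `m / log ^ A m`, the number of the representations
`m = p + q` with `p` in the window agrees with `sing m * (y₂ - y₁) / log² m` up to a relative error of at most `ε`. -/
def Holds (ε : ℝ) (A m : ℕ) : Prop :=
  (1 - ε) * (2 * C₂) * (m / Real.log m ^ 2) ≤ g m ∧
  |(g m : ℝ) - sing m * (m / Real.log m ^ 2)| ≤ ε * (sing m * (m / Real.log m ^ 2)) ∧
  ∀ y₁ y₂ : ℕ, y₁ < y₂ → y₂ ≤ m → (m : ℝ) / Real.log m ^ A ≤ (y₂ : ℝ) - y₁ →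
    |(R m y₁ y₂ : ℝ) - sing m * ((y₂ : ℝ) - y₁) / Real.log m ^ 2| ≤ ε * (sing m * ((y₂ : ℝ) - y₁) / Real.log m ^ 2)

lemma sing_ge (m : ℕ) : 2 * C₂ ≤ sing m := by
  unfold sing
  have h1 : 1 ≤ ∏ p ∈ m.primeFactors.filter (fun p => 2 < p), ((p : ℝ) - 1) / ((p : ℝ) - 2) := by
    refine Finset.prod_induction _ (fun x : ℝ => 1 ≤ x) (fun a b ha hb => one_le_mul_of_one_le_of_one_le ha hb) le_rfl ?_
    intro p hp
    rw [mem_filter] at hp
    have h3 : (3 : ℝ) ≤ p := by exact_mod_cast hp.2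
    rw [one_le_div (by linarith)]
    linarith
  have h2 : 0 ≤ 2 * C₂ := mul_nonneg zero_le_two Pool.Agent.Q25.GWin.C₂_nonneg
  calc 2 * C₂ = 2 * C₂ * 1 := (mul_one _).symm
    _ ≤ _ := mul_le_mul_of_nonneg_left h1 h2

lemma holds_of (ε : ℝ) (_hε : 0 < ε) (A : ℕ) : ∀ m : ℕ, 3 ≤ m → 2 ∣ m → Pool.Agent.W93.PG.WinP ε A m → Holds ε A m := by
  intro m hm _ hwin
  have h1 : |(g m : ℝ) - sing m * (m / Real.log m ^ 2)| ≤ ε * (sing m * (m / Real.log m ^ 2)) :=
    Pool.Agent.Q25.GWin.g_of_win hm hwin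
  refine ⟨?_, h1, hwin⟩
  have hm3 : (3 : ℝ) ≤ m := by exact_mod_cast hm
  have hQ0 : 0 ≤ (m : ℝ) / Real.log m ^ 2 := by positivity
  have hC := Pool.Agent.Q25.GWin.C₂_nonneg
  have hs := sing_ge m
  rw [abs_le] at h1
  rcases le_or_gt ε 1 with hε1 | hε1
  · have h3 : (1 - ε) * (2 * C₂ * (m / Real.log m ^ 2)) ≤ (1 - ε) * (sing m * (m / Real.log m ^ 2)) := by
      apply mul_le_mul_of_nonneg_left _ (by linarith)
      exact mul_le_mul_of_nonneg_right hs hQ0
    have h4 := h1.1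
    calc (1 - ε) * (2 * C₂) * (m / Real.log m ^ 2) = (1 - ε) * (2 * C₂ * (m / Real.log m ^ 2)) := by ring
      _ ≤ _ := h3
      _ ≤ _ := by linarith
  · have h3 : (1 - ε) * (2 * C₂) * (m / Real.log m ^ 2) ≤ 0 := by
      apply mul_nonpos_of_nonpos_of_nonneg _ hQ0
      exact mul_nonpos_of_nonpos_of_nonneg (by linarith) (by linarith)
    exact h3.trans (Nat.cast_nonneg _)

open Classical in
/-- Let `b ≥ 2`, integers `κ ≠ 0` and `β`, and `A`, `B`, `U` and `ε > 0` be fixed, and let `k` be large. Let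
`D 0, …, D (k - 1)` be arbitrary sets of at least two digits in base `b`, let `S` be the set of the integers below
`b ^ k` whose `i`-th digit lies in `D i` for all `i < k`, and let `c` be an arbitrary integer with `|c| ≤ B b ^ (2 k)`.
Then for all `n ∈ S`, except for at most `#S / k ^ U` of them, the integer `m = c + κ n ^ 2 + β n` is `≤ 0`, or odd, or
`Holds ε A m` is true; in particular it has at least `(1 - ε) 2 C₂ m / log² m` representations as a sum of two primes. -/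
theorem result (b A B U : ℕ) (hb : 2 ≤ b) (κ β : ℤ) (hκ : κ ≠ 0) (ε : ℝ) (hε : 0 < ε) :
    ∃ k₀ : ℕ, ∀ k : ℕ, k₀ ≤ k → ∀ D : ℕ → Finset ℕ, (∀ i < k, D i ⊆ range b ∧ 2 ≤ (D i).card) →
      ∀ c : ℤ, |c| ≤ B * (b : ℤ) ^ (2 * k) →
      (((S b D k).filter (fun n => 0 < value κ β c n ∧ Even (value κ β c n) ∧
        ¬ Holds ε A (value κ β c n).toNat)).card : ℝ) ≤ (S b D k).card / (k : ℝ) ^ U := by
  obtain ⟨k₀, h⟩ := win_quad b B A U 3 hb κ β hκ ε hε (Holds ε A) (holds_of ε hε A)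
  exact ⟨k₀, fun k hk D hD c hc => h k hk D hD c hc _ (fun n hn => hn)⟩

end Pool.Agent.Results.MP_dd84fd_nt.QuadraticValues
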