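import Pool.Agent.Q25.GReg2

/-!
# The local structure of the Chen representations of EVERY large even number

For an even number `n` let `Chen n` be the set of the primes `p` such that `n - p` has at most two prime factors (with
multiplicity), `p` and these factors being larger than `n ^ (1/9)`. By Chen's theorem a window `(u, u + Y]` in `[0, n]`
with `θ n ≤ Y ≤ u` contains at least `κ Y / L` elements of `Chen n`, where `L = log² n / 𝔖(n)` is the average distance
predicted by Hardy and Littlewood for the representations as a sum of two primes. We show, for EVERY large even `n`: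

* every set `S` of elements of `Chen n` in the window lies, with at most `δ` times the number of ALL elements of
  `Chen n` in the window as exceptions, in progressions of `k` elements of `S` with a difference `≤ log ^ D n`;
* all elements of every subset `A` of `Chen n`, up to the same number of exceptions, are regular points of `A`: ALL
  intervals around such a `p` with a length between `L / c` and `Y` contain the right order of elements of `A`, and, with
  the exception of at most `R` dyadic scales `2 ^ j` between `L` and `Y`, `A` has a constant density, up to `η`, on both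
  sides of `p` up to the distance `2 ^ j`.
-/

set_option autoImplicit false

namespace Pool.Agent.Results.MP_dd84fd_nt.RegularChenRepresentations

open Finset

/-- The twin prime constant `C₂ = ∏_{p > 2} (1 - 1 / (p - 1) ^ 2)`: the infimum of the decreasing partial products
over the primes `3 ≤ p ≤ z`. -/
noncomputable def C₂ : ℝ := ⨅ z : ℕ, ∏ p ∈ (Icc 3 z).filter Nat.Prime, (1 - 1 / ((p : ℝ) - 1) ^ 2)

/-- The singular series `2 C₂ ∏_{p ∣ n, p > 2} (p - 1) / (p - 2)`. -/
noncomputable def sing (n : ℕ) : ℝ :=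
  2 * C₂ * ∏ p ∈ n.primeFactors.filter (fun p => 2 < p), ((p : ℝ) - 1) / ((p : ℝ) - 2)

/-- The average distance `log² n / 𝔖(n)`. -/
noncomputable def L (n : ℕ) : ℝ := Real.log n ^ 2 / sing n

/-- The primes `p < n`, larger than `n ^ (1/9)`, such that `n - p` has at most two prime factors (counted with
multiplicity), all of them larger than `n ^ (1/9)`. -/
def Chen (n : ℕ) : Set ℕ :=
  {p | p < n ∧ p.Prime ∧ (n : ℝ) ^ (1 / 9 : ℝ) < p ∧ (n - p).primeFactorsList.length ≤ 2 ∧
    ∀ q : ℕ, q.Prime → q ∣ n - p → (n : ℝ) ^ (1 / 9 : ℝ) < q}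

/-! ### progressions -/

/-- `m` is a term of a progression of `k` elements of `S` with a difference in `[1, D]` -/
def InAP (k : ℕ) (D : ℝ) (S : Finset ℕ) (m : ℕ) : Prop :=
  ∃ a d : ℕ, 1 ≤ d ∧ (d : ℝ) ≤ D ∧ (∀ j < k, a + j * d ∈ S) ∧ ∃ j < k, m = a + j * d

open Classical in
/-- the number of the elements of `S` which do not lie in such progressions -/
noncomputable def isolated (k : ℕ) (D : ℝ) (S : Finset ℕ) : ℕ := (S.filter (fun m => ¬ InAP k D S m)).card

/-! ### regular points -/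

open Classical in
/-- the number of the elements of `A` in `(u, v]` -/
noncomputable def N (A : Set ℕ) (u v : ℕ) : ℕ := ((Ioc u v).filter (fun m => m ∈ A)).card

/-- All intervals `(m - s, m + t]` with `s, t ≤ Y` of length at least `L / c` contain the right order of elements
of `A`. -/
def RightOrder (A : Set ℕ) (L c : ℝ) (Y m : ℕ) : Prop :=
  ∀ s t : ℕ, s ≤ Y → t ≤ Y → L ≤ c * (s + t) →
    c * (s + t) / L ≤ N A (m - s) (m + t) ∧ (N A (m - s) (m + t) : ℝ) ≤ (s + t) / (c * L)

/-- Up to `η`, `A` has a constant density on both sides of `m` up to the distance `2 ^ j`. -/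
def ConstantDensity (A : Set ℕ) (L c η : ℝ) (m j : ℕ) : Prop :=
  ∃ lam : ℝ, c ≤ lam ∧ lam ≤ 1 / c ∧ ∀ s t : ℕ, s ≤ 2 ^ j → t ≤ 2 ^ j →
    |(N A (m - s) (m + t) : ℝ) - lam * (s + t) / L| ≤ η * 2 ^ j / L

open Classical in
/-- the number of the scales `L ≤ 2 ^ j ≤ Y` without this property -/
noncomputable def badScales (A : Set ℕ) (L c η : ℝ) (Y m : ℕ) : ℕ :=
  ((range (Nat.log 2 Y + 1)).filter (fun j => L ≤ (2 : ℝ) ^ j ∧ ¬ ConstantDensity A L c η m j)).card

/-- The elements of `A` that are not regular points of `A`. -/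
def Irregular (A : Set ℕ) (L c η : ℝ) (R Y : ℕ) : Set ℕ :=
  {m | m ∈ A ∧ ¬ (RightOrder A L c Y m ∧ badScales A L c η Y m ≤ R)}

lemma Irregular_eq (A : Set ℕ) (L c η : ℝ) (R Y : ℕ) :
    Irregular A L c η R Y = Pool.Agent.Y879.GL.Irr A L c η R Y := by
  have hN : N = Pool.Agent.TH977.PW.N := by
    funext A u v
    unfold N Pool.Agent.TH977.PW.N
    rfl
  unfold Irregular Pool.Agent.Y879.GL.Irr badScales Pool.Agent.Y879.GL.bS RightOrder Pool.Agent.Y879.GL.RO
    ConstantDensity Pool.Agent.Y879.GL.CD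
  rw [hN]

/-- There is `κ > 0` such that for all `k ≥ 1`, `θ > 0` and `δ > 0` there are `D` and `c > 0`, and for every `η > 0`
there are `R` and `n₀`, such that the following holds for EVERY even `n ≥ n₀` and all windows `(u, u + Y]` with
`θ n ≤ Y ≤ u`, `u + Y ≤ n`, where `w` is the number of the elements of `Chen n` in the window.

(0) `w ≥ κ Y 𝔖(n) / log² n`.
(1) Every set `S` of elements of `Chen n` in the window has at most `δ w` elements which do not lie in progressions of
`k` elements of `S` with a difference `≤ log ^ D n`.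
(2) Every subset `A` of `Chen n` has in the window at most `δ w` elements which are not regular points of `A`. -/
theorem result : ∃ κ : ℝ, 0 < κ ∧ ∀ k : ℕ, 1 ≤ k → ∀ θ δ : ℝ, 0 < θ → 0 < δ → ∃ D : ℕ, ∃ c : ℝ, 0 < c ∧
    ∀ η : ℝ, 0 < η → ∃ R n₀ : ℕ, ∀ n : ℕ, n₀ ≤ n → Even n → ∀ u Y : ℕ, θ * n ≤ Y → Y ≤ u → u + Y ≤ n →
      κ * (Y * (sing n / Real.log n ^ 2)) ≤ N (Chen n) u (u + Y) ∧
      (∀ S : Finset ℕ, S ⊆ Ioc u (u + Y) → (∀ p ∈ S, p ∈ Chen n) →
        (isolated k (Real.log n ^ D) S : ℝ) ≤ δ * N (Chen n) u (u + Y)) ∧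
      (∀ A : Set ℕ, A ⊆ Chen n →
        (N (Irregular A (L n) c η R Y) u (u + Y) : ℝ) ≤ δ * N (Chen n) u (u + Y)) := by
  classical
  obtain ⟨κ, hκ, h1⟩ := Pool.Agent.Q25.GReg.chen
  obtain ⟨r0, hr0, h2⟩ := Pool.Agent.Q25.GReg.regularR
  refine ⟨κ, hκ, fun k hk θ δ hθ hδ => ?_⟩
  have hδκ : 0 < δ * κ := by positivity
  obtain ⟨n1, h1⟩ := h1 θ hθ
  obtain ⟨D, n2, h3⟩ := Pool.Agent.Q25.GReg.narrowR hk 9 (by norm_num) hδκ
  obtain ⟨c, hc, h4⟩ := h2 (max r0 9) (le_max_left _ _) (δ * κ) hδκ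
  refine ⟨D, c, hc, fun η hη => ?_⟩
  obtain ⟨R, n3, h5⟩ := h4 η hη
  -- large `n`
  have g1 : ∀ᶠ n : ℕ in Filter.atTop, (1 / θ : ℝ) ≤ (n : ℝ) ^ (1 / 2 : ℝ) :=
    ((tendsto_rpow_atTop (show (0 : ℝ) < 1 / 2 by norm_num)).comp tendsto_natCast_atTop_atTop).eventually
      (Filter.eventually_ge_atTop _)
  obtain ⟨n4, g1⟩ := Filter.eventually_atTop.1 g1
  refine ⟨R, max (max n1 n2) (max (max n3 n4) 2), fun n hn he u Y hY hYu huY => ?_⟩
  have hn1 : n1 ≤ n := ((le_max_left _ _).trans (le_max_left _ _)).trans hn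
  have hn2 : n2 ≤ n := ((le_max_right _ _).trans (le_max_left _ _)).trans hn
  have hn3 : n3 ≤ n := (((le_max_left _ _).trans (le_max_left _ _)).trans (le_max_right _ _)).trans hn
  have hn4 : n4 ≤ n := (((le_max_right _ _).trans (le_max_left _ _)).trans (le_max_right _ _)).trans hn
  have hn5 : 2 ≤ n := ((le_max_right _ _).trans (le_max_right _ _)).trans hn
  have hnr : (0 : ℝ) < n := by exact_mod_cast (by omega : 0 < n)
  have hnr1 : (1 : ℝ) ≤ n := by exact_mod_cast (by omega : 1 ≤ n)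
  have hYl : (n : ℝ) ^ (1 / 2 : ℝ) ≤ Y := by
    have g2 := g1 n hn4
    rw [div_le_iff₀ hθ] at g2
    have g3 : (n : ℝ) ^ (1 / 2 : ℝ) * (n : ℝ) ^ (1 / 2 : ℝ) = n := by
      rw [← Real.rpow_add hnr]
      norm_num
    have g4 : (0 : ℝ) < (n : ℝ) ^ (1 / 2 : ℝ) := by positivity
    calc (n : ℝ) ^ (1 / 2 : ℝ) ≤ (n : ℝ) ^ (1 / 2 : ℝ) * ((n : ℝ) ^ (1 / 2 : ℝ) * θ) := by nlinarith
      _ = θ * n := by rw [← mul_assoc, g3]; ring
      _ ≤ Y := hY
  have h19 : (n : ℝ) ^ (1 / 9 : ℝ) ≤ (n : ℝ) ^ (1 / 2 : ℝ) :=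
    Real.rpow_le_rpow_of_exponent_le hnr1 (by norm_num)
  -- the number
  have hw : κ * (Y * (sing n / Real.log n ^ 2)) ≤ N (Chen n) u (u + Y) := by
    refine (h1 n hn1 he u Y hY huY).trans ?_
    unfold N
    apply Nat.cast_le.2
    apply card_le_card
    intro p hp
    rw [mem_filter, mem_Ioc] at hp ⊢
    obtain ⟨⟨hp1, hp2⟩, hp3, hp4, hp5, hp6⟩ := hp
    refine ⟨⟨hp1, hp2⟩, hp3, hp4, ?_, hp5, hp6⟩
    have : (Y : ℝ) < p := by exact_mod_cast (by omega : Y < p)
    linarith
  have hrough : ∀ m ∈ Chen n, ∀ p : ℕ, p.Prime → (p : ℝ) ≤ (n : ℝ) ^ (1 / 9 : ℝ) → ¬ p ∣ m ∧ ¬ p ∣ n - m := by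
    rintro m ⟨hm1, hm2, hm3, hm4, hm5⟩ p hp hpn
    constructor
    · intro hd
      have := (Nat.prime_dvd_prime_iff_eq hp hm2).1 hd
      rw [this] at hpn
      linarith
    · intro hd
      have := hm5 p hp hd
      linarith
  refine ⟨hw, fun S hS hSp => ?_, fun A hA => ?_⟩
  · have h6 := h3 n hn2 he u Y hYl (by omega) S hS (by
      intro m hm p hp hpn
      rw [show (1 : ℝ) / ((9 : ℕ) : ℝ) = 1 / 9 by norm_num] at hpn
      obtain ⟨g5, g6⟩ := hrough m (hSp m hm) p hp hpn
      refine ⟨g5, fun hmod => g6 ?_⟩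
      have hmn : m ≤ n := (hSp m hm).1.le
      exact (Nat.modEq_iff_dvd' hmn).1 hmod.symm)
    calc (isolated k (Real.log n ^ D) S : ℝ) ≤ δ * κ * (Y * (sing n / Real.log n ^ 2)) := h6
      _ = δ * (κ * (Y * (sing n / Real.log n ^ 2))) := by ring
      _ ≤ δ * N (Chen n) u (u + Y) := by gcongr
  · have h6 := h5 n hn3 he A (by
      intro m hm
      refine ⟨(hA hm).1, fun p hp hpn => hrough m (hA hm) p hp (hpn.trans ?_)⟩
      apply Real.rpow_le_rpow_of_exponent_le hnr1
      apply one_div_le_one_div_of_le (by norm_num)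
      exact_mod_cast le_max_right r0 9) u Y hYl hYu huY
    rw [Irregular_eq]
    calc _ ≤ δ * κ * (Y * (sing n / Real.log n ^ 2)) := h6
      _ = δ * (κ * (Y * (sing n / Real.log n ^ 2))) := by ring
      _ ≤ δ * N (Chen n) u (u + Y) := by gcongr

end Pool.Agent.Results.MP_dd84fd_nt.RegularChenRepresentations
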